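import Pool.Agent.Y73.QMQ1.Gal
import Pool.Agent.Y203.QTZ5
import Pool.Agent.W165.CE.Euler

/-! Project QT, task MQ1: the `L`-function of an elliptic curve over a multiquadratic field is the
product of the `L`-functions of the twists. -/

set_option autoImplicit false

namespace Pool.Agent.Y73.QMQ1

open Complex NumberField IsDedekindDomain Filter
open Pool.Agent.Y19.QT
open Pool.Agent.Y705.QT (pf pf_diff ap_twist)
open Pool.Agent.Y203.QTZ5 (pf_ne)
open Pool.Agent.H921R2.TatePole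
open Pool.Agent.H82R3.EK (luc nm_cpow prime_cpow)
open W165.CE (trace_good fac fac_sub_bound finite_bad intCast_mem_iff ap0)
open Pool.Agent.H306R2.RZ (js)

/-! ### signs -/

lemma sign_prod {n : ℕ} (ε : Fin n → ℤ) (hε : ∀ i, ε i = 1 ∨ ε i = -1) (T : Finset (Fin n)) :
    ∏ i ∈ T, ε i = 1 ∨ ∏ i ∈ T, ε i = -1 := by
  classical
  induction T using Finset.induction_on with
  | empty => left; rfl
  | insert a s ha ih =>
    rw [Finset.prod_insert ha]
    rcases hε a with h | h <;> rcases ih with h' | h' <;> rw [h, h'] <;> simp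

lemma prod_B {n : ℕ} (ε : Fin n → ℤ) (hε : ∀ i, ε i = 1 ∨ ε i = -1) (i0 : Fin n)
    (h0 : ε i0 = -1) (g : ℤ → ℂ) :
    ∏ T : Finset (Fin n), g (∏ i ∈ T, ε i) = (g 1 * g (-1)) ^ (2 ^ (n - 1)) := by
  classical
  have e0 : (Finset.univ : Finset (Finset (Fin n))) =
      (insert i0 (Finset.univ.erase i0)).powerset := by
    rw [Finset.insert_erase (Finset.mem_univ _), Finset.powerset_univ]
  rw [e0, Finset.prod_powerset_insert (Finset.notMem_erase _ _), ← Finset.prod_mul_distrib]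
  have e1 : ∀ T ∈ (Finset.univ.erase i0).powerset,
      g (∏ i ∈ T, ε i) * g (∏ i ∈ insert i0 T, ε i) = g 1 * g (-1) := by
    intro T hT
    have hi : i0 ∉ T := fun h => by simpa using Finset.mem_powerset.1 hT h
    rw [Finset.prod_insert hi, h0]
    rcases sign_prod ε hε T with h | h <;> rw [h]
    · norm_num
    · norm_num
      rw [mul_comm]
  rw [Finset.prod_congr rfl e1, Finset.prod_const, Finset.card_powerset,
    Finset.card_erase_of_mem (Finset.mem_univ _), Finset.card_univ, Fintype.card_fin]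

lemma js_prod {n : ℕ} (d : Fin n → ℤ) (T : Finset (Fin n)) (p : ℕ) :
    jacobiSym (∏ i ∈ T, d i) p = ∏ i ∈ T, jacobiSym (d i) p := by
  classical
  induction T using Finset.induction_on with
  | empty => simp [jacobiSym.one_left]
  | insert a s ha ih => rw [Finset.prod_insert ha, Finset.prod_insert ha, jacobiSym.mul_left, ih]

/-! ### the places of `K` -/

section
variable {K : Type} [Field K] [NumberField K]

lemma qv_eq (v : HeightOneSpectrum (𝓞 K)) : qv K v = Ideal.absNorm v.asIdeal := by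
  unfold qv
  rw [Ideal.absNorm_apply, Submodule.cardQuot_apply]

lemma av_eq (a b : ℤ) (v : HeightOneSpectrum (𝓞 K)) : av K a b v = W165.CE.av a b v := by
  unfold av W165.CE.av
  rw [qv_eq]

open Classical in
/-- the local factor -/
noncomputable def fK (a b D : ℤ) (s : ℂ) (v : HeightOneSpectrum (𝓞 K)) : ℂ :=
  if ((2 * (4 * a ^ 3 + 27 * b ^ 2) * D : ℤ) : 𝓞 K) ∈ v.asIdeal then 1 else
    (1 - (av K a b v : ℂ) * (qv K v : ℂ) ^ (-s) + (qv K v : ℂ) ^ (1 - 2 * s))⁻¹

lemma fK_good {a b D : ℤ} (v : HeightOneSpectrum (𝓞 K)) (s : ℂ)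
    (hv : ¬ ((below v : ℕ) : ℤ) ∣ 2 * (4 * a ^ 3 + 27 * b ^ 2) * D) :
    fK a b D s v = (1 - ((luc (ap a b (below v)) (below v : ℕ) (deg v) : ℤ) : ℂ) *
        (((below v : ℕ) : ℂ) ^ (-s)) ^ deg v +
      (((below v : ℕ) : ℂ) * (((below v : ℕ) : ℂ) ^ (-s)) ^ 2) ^ deg v)⁻¹ := by
  have hv2 : ¬ ((below v : ℕ) : ℤ) ∣ 2 * (4 * a ^ 3 + 27 * b ^ 2) := fun h => hv (h.mul_right D)
  unfold fK
  rw [if_neg (fun h => hv ((intCast_mem_iff v _).1 h)), av_eq, qv_eq, trace_good v hv2, nm_cpow,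
    nm_cpow, prime_cpow _ (below v).2.ne_zero]
  rfl

lemma fK_bad {a b D : ℤ} (v : HeightOneSpectrum (𝓞 K)) (s : ℂ)
    (hv : ((below v : ℕ) : ℤ) ∣ 2 * (4 * a ^ 3 + 27 * b ^ 2) * D) : fK a b D s v = 1 := by
  unfold fK
  rw [if_pos ((intCast_mem_iff v _).2 hv)]

lemma fK_fac {a b D : ℤ} (v : HeightOneSpectrum (𝓞 K)) (s : ℂ)
    (hv : ¬ ((below v : ℕ) : ℤ) ∣ 2 * (4 * a ^ 3 + 27 * b ^ 2) * D) :
    fK a b D s v = fac a b 1 (fun _ => 0) s v := by
  have hv2 : ¬ ((below v : ℕ) : ℤ) ∣ 2 * (4 * a ^ 3 + 27 * b ^ 2) := fun h => hv (h.mul_right D)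
  unfold fK fac
  rw [if_neg (fun h => hv ((intCast_mem_iff v _).1 h)),
    if_neg (fun h => hv2 ((intCast_mem_iff v _).1 h)), av_eq, qv_eq]

lemma multipliable_fK {a b D : ℤ} (hE : 4 * a ^ 3 + 27 * b ^ 2 ≠ 0) (hD : D ≠ 0) (s : ℂ)
    (hs : 3 / 2 < s.re) : Multipliable (fK (K := K) a b D s) := by
  have hsum := nm_summable (K := K) (x := s.re - 1 / 2) (by linarith)
  have h1 : Summable (fun v : HeightOneSpectrum (𝓞 K) => ‖fK a b D s v - 1‖) := by
    refine Summable.of_norm_bounded_eventually (hsum.mul_left 6) ?_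
    have h2 := hsum.tendsto_cofinite_zero.eventually (Iio_mem_nhds (by norm_num : (0 : ℝ) < 1 / 6))
    have h3 : ∀ᶠ v : HeightOneSpectrum (𝓞 K) in cofinite,
        ¬ ((below v : ℕ) : ℤ) ∣ 2 * (4 * a ^ 3 + 27 * b ^ 2) * D := by
      rw [Filter.eventually_cofinite]
      simp only [not_not]
      exact finite_bad _ (mul_ne_zero (mul_ne_zero two_ne_zero hE) hD)
    filter_upwards [h2, h3] with v hv hv3
    have hv2 : ¬ ((below v : ℕ) : ℤ) ∣ 2 * (4 * a ^ 3 + 27 * b ^ 2) :=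
      fun h => hv3 (h.mul_right D)
    rw [norm_norm, fK_fac v s hv3]
    exact fac_sub_bound v hv2 s hs (le_of_lt hv)
  have h2 := multipliable_one_add_of_summable h1
  refine h2.congr (fun v => ?_)
  ring

/-- the product over the places above a good prime -/
lemma local_prod {n : ℕ} {d : Fin n → ℤ} {x : Fin n → K} (hd : Indep d)
    (hx : ∀ i, x i ^ 2 = (d i : K)) (hK : IntermediateField.adjoin ℚ (Set.range x) = ⊤) (a b : ℤ)
    (s : ℂ) (p : Nat.Primes)
    (hp : ¬ ((p : ℕ) : ℤ) ∣ 2 * (4 * a ^ 3 + 27 * b ^ 2) * ∏ i, d i) :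
    ∏ v : {v : HeightOneSpectrum (𝓞 K) // below v = p}, fK a b (∏ i, d i) s v.1 =
      ∏ T : Finset (Fin n), (1 - ((∏ i ∈ T, jacobiSym (d i) p : ℤ) : ℂ) * (ap a b p : ℂ) *
        ((p : ℕ) : ℂ) ^ (-s) + ((p : ℕ) : ℂ) * (((p : ℕ) : ℂ) ^ (-s)) ^ 2)⁻¹ := by
  classical
  have hpf : Fact (p : ℕ).Prime := ⟨p.2⟩
  have hpi : Prime ((p : ℕ) : ℤ) := Nat.prime_iff_prime_int.1 p.2
  have hp2 : (p : ℕ) ≠ 2 := by
    intro h
    apply hp
    rw [h]
    exact ((dvd_mul_right _ _).mul_right _)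
  have hpd : ∀ i, ¬ (((p : ℕ) : ℤ) ∣ d i) := fun i h =>
    hp ((h.trans (Finset.dvd_prod_of_mem d (Finset.mem_univ i))).mul_left _)
  have hjac : ∀ i, jacobiSym (d i) p = 1 ∨ jacobiSym (d i) p = -1 := by
    intro i
    rw [← jacobiSym.legendreSym.to_jacobiSym]
    apply legendreSym.eq_one_or_neg_one
    rw [Ne, ZMod.intCast_zmod_eq_zero_iff_dvd]
    exact hpd i
  obtain ⟨h1, h2⟩ := split_loc (K := K) hd hx hK p hp2 hpd
  set t : ℂ := (ap a b p : ℂ) with ht
  set X : ℂ := ((p : ℕ) : ℂ) ^ (-s) with hX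
  have h3 : ∀ v : {v : HeightOneSpectrum (𝓞 K) // below v = p}, fK a b (∏ i, d i) s v.1 =
      (1 - ((luc (ap a b p) (p : ℕ) (fd d p) : ℤ) : ℂ) * X ^ fd d p +
        (((p : ℕ) : ℂ) * X ^ 2) ^ fd d p)⁻¹ := by
    rintro ⟨v, hv⟩
    have h4 := h1 v hv
    subst hv
    rw [fK_good v s hp, h4]
  rw [Finset.prod_congr rfl (fun v _ => h3 v), Finset.prod_const, Finset.card_univ]
  by_cases hall : ∀ i, jacobiSym (d i) p = 1
  · have hf : fd d p = 1 := by unfold fd; rw [if_pos hall]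
    rw [hf, mul_one] at h2
    have h4 : ∀ T : Finset (Fin n), ∏ i ∈ T, jacobiSym (d i) p = 1 := fun T =>
      Finset.prod_eq_one fun i _ => hall i
    have h6 : ∀ T : Finset (Fin n), (1 - ((∏ i ∈ T, jacobiSym (d i) p : ℤ) : ℂ) * t * X +
        ((p : ℕ) : ℂ) * X ^ 2)⁻¹ = (1 - t * X + ((p : ℕ) : ℂ) * X ^ 2)⁻¹ := by
      intro T
      rw [h4 T, Int.cast_one, one_mul]
    rw [Finset.prod_congr rfl fun T _ => h6 T, Finset.prod_const, Finset.card_univ,
      Fintype.card_finset, Fintype.card_fin, h2, hf]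
    have hl1 : luc (ap a b p) ((p : ℕ) : ℤ) 1 = ap a b p := rfl
    rw [hl1, pow_one, pow_one]
  · have hf : fd d p = 2 := by unfold fd; rw [if_neg hall]
    push Not at hall
    obtain ⟨i0, hi0⟩ := hall
    have hi1 := (hjac i0).resolve_left hi0
    have hn : n ≠ 0 := by
      rintro rfl
      exact i0.elim0
    obtain ⟨m, rfl⟩ := Nat.exists_eq_succ_of_ne_zero hn
    rw [hf] at h2
    have h4 : Fintype.card {v : HeightOneSpectrum (𝓞 K) // below v = p} = 2 ^ m := by
      have : 2 ^ (m + 1) = 2 ^ m * 2 := pow_succ _ _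
      simp only [Nat.succ_eq_add_one] at h2
      omega
    have h5 : ∏ T : Finset (Fin m.succ), (1 - ((∏ i ∈ T, jacobiSym (d i) p : ℤ) : ℂ) * t * X +
        ((p : ℕ) : ℂ) * X ^ 2)⁻¹ = ((1 - ((1 : ℤ) : ℂ) * t * X + ((p : ℕ) : ℂ) * X ^ 2)⁻¹ *
          (1 - ((-1 : ℤ) : ℂ) * t * X + ((p : ℕ) : ℂ) * X ^ 2)⁻¹) ^ (2 ^ (m.succ - 1)) :=
      prod_B (fun i => jacobiSym (d i) p) hjac i0 hi1
        (fun z => (1 - (z : ℂ) * t * X + ((p : ℕ) : ℂ) * X ^ 2)⁻¹)
    rw [h5, h4, hf, Nat.succ_sub_one, ← mul_inv]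
    have hl2 : luc (ap a b p) ((p : ℕ) : ℤ) 2 =
        ap a b p * ap a b p - ((p : ℕ) : ℤ) * 2 := rfl
    rw [hl2]
    congr 2
    push_cast
    ring

end

/-! ### orders -/

lemma order_prod {ι : Type} (S : Finset ι) (f : ι → ℂ → ℂ) (hf : ∀ i ∈ S, Differentiable ℂ (f i))
    (z : ℂ) : analyticOrderAt (fun s => ∏ i ∈ S, f i s) z = ∑ i ∈ S, analyticOrderAt (f i) z := by
  classical
  induction S using Finset.induction_on with
  | empty =>
    simp only [Finset.prod_empty, Finset.sum_empty]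
    rw [AnalyticAt.analyticOrderAt_eq_zero analyticAt_const]
    exact one_ne_zero
  | insert i S hi ih =>
    have h1 : AnalyticAt ℂ (f i) z := (hf i (Finset.mem_insert_self _ _)).analyticAt z
    have h2 : Differentiable ℂ (fun s => ∏ i ∈ S, f i s) :=
      Differentiable.fun_finsetProd fun j hj => hf j (Finset.mem_insert_of_mem hj)
    rw [Finset.sum_insert hi, ← ih fun j hj => hf j (Finset.mem_insert_of_mem hj),
      ← analyticOrderAt_mul h1 (h2.analyticAt z)]
    congr 1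
    funext s
    rw [Finset.prod_insert hi]
    rfl

/-! ### the main theorem -/

theorem MQ1 (a b : ℤ) (hab : 4 * a ^ 3 + 27 * b ^ 2 ≠ 0) (n : ℕ) (d : Fin n → ℤ) (hd : Indep d)
    (G : Finset (Fin n) → ℂ → ℂ)
    (hG : ∀ T, IsLFun (a * (∏ i ∈ T, d i) ^ 2) (b * (∏ i ∈ T, d i) ^ 3) (G T))
    (K : Type) [Field K] [NumberField K] (x : Fin n → K) (hx : ∀ i, x i ^ 2 = (d i : K))
    (hK : IntermediateField.adjoin ℚ (Set.range x) = ⊤) :
    ∃ F : ℂ → ℂ, IsLFunK K a b (∏ i, d i) F ∧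
      ∀ s : ℂ, 1 / 2 < s.re → analyticOrderAt F s =
        ∑ T : Finset (Fin n), analyticOrderAt (G T) s := by
  classical
  have hD0 : (∏ i, d i) ≠ 0 := Finset.prod_ne_zero_iff.2 fun i _ => d_ne_zero hd i
  set D : ℤ := ∏ i, d i with hD
  set e : Finset (Fin n) → ℤ := fun T => ∏ i ∈ T, d i with he
  set A : Finset (Fin n) → ℤ := fun T => a * (e T) ^ 2 with hA
  set B : Finset (Fin n) → ℤ := fun T => b * (e T) ^ 3 with hB
  set M : Finset (Fin n) → ℤ := fun T => 2 * (-4 * (A T) ^ 3 - 27 * (B T) ^ 2) with hM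
  have hMe : ∀ T, M T = -(2 * (4 * a ^ 3 + 27 * b ^ 2)) * (e T) ^ 6 := by
    intro T
    simp only [hM, hA, hB]
    ring
  have heD : ∀ T, e T ∣ D := fun T => Finset.prod_dvd_prod_of_subset _ _ _ (Finset.subset_univ T)
  set S : Finset (Fin n) → Finset ℕ := fun T =>
    D.natAbs.primeFactors.filter (fun p => ¬ (p : ℤ) ∣ M T) with hS
  have hSm : ∀ T q, q ∈ S T ↔ q ∈ D.natAbs.primeFactors ∧ ¬ (q : ℤ) ∣ M T := fun T q =>
    Finset.mem_filter
  have hSp : ∀ T, ∀ q ∈ S T, q.Prime := fun T q hq =>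
    Nat.prime_of_mem_primeFactors ((hSm T q).1 hq).1
  have hS2 : ∀ T, ∀ q ∈ S T, q ≠ 2 := by
    rintro T q hq rfl
    exact ((hSm T 2).1 hq).2 (dvd_mul_right _ _)
  set H : Finset (Fin n) → ℂ → ℂ := fun T s => G T s * ∏ p ∈ S T, pf (A T) (B T) s p with hH
  have hCd : ∀ T, Differentiable ℂ (fun s => ∏ p ∈ S T, pf (A T) (B T) s p) := fun T =>
    Differentiable.fun_finsetProd fun p hp => pf_diff (A T) (B T) (hSp T p hp)
  have hHd : ∀ T, Differentiable ℂ (H T) := fun T => (hG T).1.mul (hCd T)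
  refine ⟨fun s => ∏ T, H T s, ⟨Differentiable.fun_finsetProd fun T _ => hHd T, ?_⟩, ?_⟩
  · intro s hs
    have hs' : 1 / 2 < s.re := by linarith
    -- the Euler product over the primes
    have h1 : ∀ T, HasProd (fun p : ℕ => (if p.Prime ∧ ¬ (p : ℤ) ∣ M T then
        (pf (A T) (B T) s p)⁻¹ else 1) * (if p ∈ S T then pf (A T) (B T) s p else 1)) (H T s) := by
      intro T
      have h2 := (hG T).2 s hs
      have h3 : HasProd (fun p => if p ∈ S T then pf (A T) (B T) s p else 1)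
          (∏ p ∈ S T, pf (A T) (B T) s p) := by
        have h4 : HasProd (fun p => if p ∈ S T then pf (A T) (B T) s p else 1)
            (∏ p ∈ S T, if p ∈ S T then pf (A T) (B T) s p else 1) :=
          hasProd_prod_of_ne_finset_one (fun p hp => if_neg hp)
        rwa [Finset.prod_congr rfl fun p hp => if_pos hp] at h4
      have hpf : ∀ p : ℕ, pf (A T) (B T) s p = 1 - ((p : ℂ) - (Nat.card {q : ZMod p × ZMod p //
            q.2 ^ 2 = q.1 ^ 3 + ((A T : ℤ) : ZMod p) * q.1 + ((B T : ℤ) : ZMod p)} : ℂ))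
            * (p : ℂ) ^ (-s) + (p : ℂ) ^ (1 - 2 * s) := by
        intro p
        unfold pf ap
        push_cast
        rfl
      simp_rw [hpf] at h3 ⊢
      rw [show H T s = G T s * ∏ p ∈ S T, pf (A T) (B T) s p from rfl]
      simp_rw [hpf]
      exact h2.mul h3
    have h5 : HasProd (fun p : ℕ => ∏ T : Finset (Fin n), ((if p.Prime ∧ ¬ (p : ℤ) ∣ M T then
        (pf (A T) (B T) s p)⁻¹ else 1) * (if p ∈ S T then pf (A T) (B T) s p else 1)))
        (∏ T, H T s) := hasProd_prod fun T _ => h1 T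
    have h6 := (Function.Injective.hasProd_iff (g := fun p : Nat.Primes => (p : ℕ))
      Subtype.val_injective (by
        intro p hp
        have hp' : ¬ p.Prime := fun h => hp ⟨⟨p, h⟩, rfl⟩
        refine Finset.prod_eq_one fun T _ => ?_
        rw [if_neg (by tauto), if_neg (fun h => hp' (hSp T p h)), one_mul])).2 h5
    have h7 : ∀ p : Nat.Primes, ((fun p : ℕ => ∏ T : Finset (Fin n),
        ((if p.Prime ∧ ¬ (p : ℤ) ∣ M T then (pf (A T) (B T) s p)⁻¹ else 1) *
          (if p ∈ S T then pf (A T) (B T) s p else 1))) ∘ fun p : Nat.Primes => (p : ℕ)) p =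
        ∏ v : {v : HeightOneSpectrum (𝓞 K) // below v = p}, fK a b D s v.1 := by
      intro p
      show ∏ T : Finset (Fin n), ((if (p : ℕ).Prime ∧ ¬ ((p : ℕ) : ℤ) ∣ M T then
        (pf (A T) (B T) s p)⁻¹ else 1) * (if (p : ℕ) ∈ S T then pf (A T) (B T) s p else 1)) = _
      have hpi := Nat.prime_iff_prime_int.1 p.2
      by_cases hp : ((p : ℕ) : ℤ) ∣ 2 * (4 * a ^ 3 + 27 * b ^ 2) * D
      · rw [Finset.prod_eq_one, Finset.prod_eq_one]
        · rintro ⟨v, rfl⟩ _
          exact fK_bad v s hp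
        · intro T _
          by_cases h8 : ((p : ℕ) : ℤ) ∣ M T
          · rw [if_neg (by tauto), if_neg (fun h => ((hSm T p).1 h).2 h8), one_mul]
          · have h9 : ¬ ((p : ℕ) : ℤ) ∣ 2 * (4 * a ^ 3 + 27 * b ^ 2) := fun h => h8 (by
              rw [hMe]
              exact ((dvd_neg).2 h).mul_right _)
            have h10 : ((p : ℕ) : ℤ) ∣ D := (hpi.dvd_or_dvd hp).resolve_left h9
            have h11 : (p : ℕ) ∈ S T := (hSm T p).2 ⟨Nat.mem_primeFactors.2
              ⟨p.2, Int.natCast_dvd.1 h10, Int.natAbs_ne_zero.2 hD0⟩, h8⟩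
            rw [if_pos ⟨p.2, h8⟩, if_pos h11]
            exact inv_mul_cancel₀ (pf_ne _ _ p.2 (hS2 T p h11) s hs')
      · rw [local_prod hd hx hK a b s p hp]
        refine Finset.prod_congr rfl fun T _ => ?_
        have h8 : ¬ ((p : ℕ) : ℤ) ∣ M T := by
          rw [hMe]
          intro h
          rcases hpi.dvd_or_dvd h with h | h
          · exact hp ((dvd_neg.1 h).mul_right _)
          · exact hp (((hpi.dvd_of_dvd_pow h).trans (heD T)).mul_left _)
        have h9 : (p : ℕ) ∉ S T := by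
          intro h
          have h10 := Nat.dvd_of_mem_primeFactors ((hSm T p).1 h).1
          exact hp ((Int.natCast_dvd.2 h10).mul_left _)
        rw [if_pos ⟨p.2, h8⟩, if_neg h9, mul_one]
        congr 1
        have hp2 : (p : ℕ) ≠ 2 := by
          intro h
          apply hp
          rw [h]
          exact ((dvd_mul_right _ _).mul_right _)
        have hpe : ¬ ((p : ℕ) : ℤ) ∣ e T := fun h => hp ((h.trans (heD T)).mul_left _)
        have h10 := ap_twist a b (e T) p p.2 hp2 hpe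
        have h11 : (ap (A T) (B T) p : ℂ) =
            ((∏ i ∈ T, jacobiSym (d i) p : ℤ) : ℂ) * (ap a b p : ℂ) := by
          have h12 := congrArg (fun z : ℝ => (z : ℂ)) h10
          unfold js at h12
          rw [js_prod] at h12
          push_cast at h12 ⊢
          exact h12
        unfold pf
        rw [h11, prime_cpow _ p.2.ne_zero]
    have h6' : HasProd (fun p : Nat.Primes =>
        ∏ v : {v : HeightOneSpectrum (𝓞 K) // below v = p}, fK a b D s v.1) (∏ T, H T s) := by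
      refine (congrArg (fun g => HasProd g (∏ T, H T s)) (funext h7)).mp h6
    show HasProd (fK (K := K) a b D s) (∏ T, H T s)
    rw [← (Equiv.sigmaFiberEquiv (below (K := K))).hasProd_iff]
    refine HasProd.sigma_of_hasProd h6' (fun p => ?_) ?_
    · exact hasProd_fintype _
    · exact (Equiv.sigmaFiberEquiv (below (K := K))).multipliable_iff.2
        (multipliable_fK hab hD0 s hs)
  · intro z hz
    rw [order_prod Finset.univ H (fun T _ => hHd T) z]
    refine Finset.sum_congr rfl fun T _ => ?_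
    have h1 : H T = G T * (fun s => ∏ p ∈ S T, pf (A T) (B T) s p) := rfl
    have h2 : AnalyticAt ℂ (G T) z := (hG T).1.analyticAt z
    rw [h1, analyticOrderAt_mul h2 ((hCd T).analyticAt z)]
    have h3 : analyticOrderAt (fun s => ∏ p ∈ S T, pf (A T) (B T) s p) z = 0 := by
      rw [((hCd T).analyticAt z).analyticOrderAt_eq_zero, Finset.prod_ne_zero_iff]
      exact fun p hp => pf_ne (A T) (B T) (hSp T p hp) (hS2 T p hp) z hz
    rw [h3, add_zero]

end Pool.Agent.Y73.QMQ1
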